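import Mathlib

set_option autoImplicit false

/-!
# MP_9a43b6_co: Boolean algebras generated by a chain have the monotone selection property

In the Boolean ring of `T`, the nonzero elements of the chain together with `1` are a basis over
the field with two elements.  Let `supp x` be the finite set of the basis elements which occur in
`x`.  An element of the basis occurs in `x ⊓ y` and `x ⊔ y` together at most as often as in `x` and
`y` together.  Choose a well-ordering of `T`, and order the finite sets by the largest element in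
which they differ; this is again a well-ordering.  The selection `φ S` is the element `x ∈ S` with
minimal `supp x`.
-/

namespace Pool.Agent.Results.MP_9a43b6_co.ChainGenerated

universe u

/-! ### Statement -/

/-- nonempty sublattices of the lattice `T`, as sets -/
def IsSub {T : Type u} [Lattice T] (S : Set T) : Prop :=
  S.Nonempty ∧ ∀ x ∈ S, ∀ y ∈ S, x ⊓ y ∈ S ∧ x ⊔ y ∈ S

/-- the relation `S ≤ S'` between sublattices: `x ⊓ x' ∈ S` and `x ⊔ x' ∈ S'` for all `x ∈ S` and
`x' ∈ S'` -/
def Below {T : Type u} [Lattice T] (S S' : Set T) : Prop :=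
  ∀ x ∈ S, ∀ x' ∈ S', x ⊓ x' ∈ S ∧ x ⊔ x' ∈ S'

/-- `T` has the monotone selection property. -/
def MonotoneSelection (T : Type u) [Lattice T] : Prop :=
  ∃ φ : {S : Set T // IsSub S} → T,
    (∀ S S' : {S : Set T // IsSub S}, Below S.1 S'.1 → φ S ≤ φ S') ∧
    ∀ S : {S : Set T // IsSub S}, φ S ∈ S.1

/-- The Boolean algebra `T` is generated by a chain. -/
def GeneratedByChain (T : Type u) [BooleanAlgebra T] : Prop :=
  ∃ C : Set T, IsChain (· ≤ ·) C ∧ ∀ A : BooleanSubalgebra T, C ⊆ (A : Set T) → A = ⊤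

/-! ### Boolean rings spanned by a chain -/

section Ring

variable {R : Type u} [BooleanRing R]

open Classical in
theorem sum_symmDiff (A B : Finset R) :
    ∑ b ∈ symmDiff A B, b = ∑ a ∈ A, a + ∑ b ∈ B, b := by
  have h1 : ∑ a ∈ A, a = ∑ a ∈ A \ B, a + ∑ a ∈ A ∩ B, a := by
    rw [← Finset.sum_union (Finset.disjoint_sdiff_inter A B), Finset.sdiff_union_inter]
  have h2 : ∑ b ∈ B, b = ∑ b ∈ B \ A, b + ∑ a ∈ A ∩ B, a := by
    rw [Finset.inter_comm, ← Finset.sum_union (Finset.disjoint_sdiff_inter B A),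
      Finset.sdiff_union_inter]
  have h3 : ∑ b ∈ symmDiff A B, b = ∑ a ∈ A \ B, a + ∑ b ∈ B \ A, b := by
    rw [symmDiff_def, Finset.sup_eq_union, Finset.sum_union]
    exact disjoint_sdiff_sdiff
  have h4 : ∑ a ∈ A ∩ B, a + ∑ a ∈ A ∩ B, a = 0 := BooleanRing.add_self _
  rw [h1, h2, h3]
  calc _ = ∑ a ∈ A \ B, a + ∑ b ∈ B \ A, b + 0 := by rw [add_zero]
    _ = ∑ a ∈ A \ B, a + ∑ b ∈ B \ A, b + (∑ a ∈ A ∩ B, a + ∑ a ∈ A ∩ B, a) := by rw [h4]
    _ = _ := by abel

variable {C : Set R} (hC : ∀ a ∈ C, ∀ b ∈ C, a * b = a ∨ a * b = b) (h0 : (0 : R) ∉ C)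

include hC in
theorem exists_max (B : Finset R) (hB : (B : Set R) ⊆ C) (hne : B.Nonempty) :
    ∃ m ∈ B, ∀ b ∈ B, b * m = b := by
  classical
  induction B using Finset.induction_on with
  | empty => exact absurd hne Finset.not_nonempty_empty
  | insert a B ha ih =>
    rcases B.eq_empty_or_nonempty with rfl | hB'
    · exact ⟨a, by simp, by simp [BooleanRing.mul_self]⟩
    · have hsub : (B : Set R) ⊆ C := fun x hx => hB (by simp [Finset.mem_coe.1 hx])
      obtain ⟨m, hm, hmax⟩ := ih hsub hB'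
      rcases hC a (hB (by simp)) m (hsub hm) with h | h
      · refine ⟨m, by simp [hm], ?_⟩
        intro b hb
        rcases Finset.mem_insert.1 hb with rfl | hb
        · exact h
        · exact hmax b hb
      · refine ⟨a, by simp, ?_⟩
        intro b hb
        rcases Finset.mem_insert.1 hb with rfl | hb
        · exact BooleanRing.mul_self _
        · have h1 := hmax b hb
          calc b * a = (b * m) * a := by rw [h1]
            _ = b * (a * m) := by ring
            _ = b := by rw [h, h1]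

include hC h0 in
theorem indep (B : Finset R) (hB : (B : Set R) ⊆ C) (hsum : ∑ b ∈ B, b = 0) : B = ∅ := by
  classical
  by_contra hne
  obtain ⟨m, hm, hmax⟩ := exists_max hC B hB (Finset.nonempty_iff_ne_empty.2 hne)
  have hBm : insert m (B.erase m) = B := Finset.insert_erase hm
  have hsum' : m + ∑ b ∈ B.erase m, b = 0 := by
    have h := Finset.sum_insert (f := fun b : R => b) (Finset.notMem_erase m B)
    rw [hBm] at h
    exact h.symm.trans hsum
  rcases (B.erase m).eq_empty_or_nonempty with he | he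
  · rw [he, Finset.sum_empty, add_zero] at hsum'
    exact h0 (hsum' ▸ hB hm)
  · have hsub : ((B.erase m : Finset R) : Set R) ⊆ C := fun x hx =>
      hB (Finset.mem_of_mem_erase hx)
    obtain ⟨m', hm', hmax'⟩ := exists_max hC (B.erase m) hsub he
    have h1 : (∑ b ∈ B.erase m, b) * m' = ∑ b ∈ B.erase m, b := by
      rw [Finset.sum_mul]
      exact Finset.sum_congr rfl hmax'
    have h2 : m' * m = m' := hmax m' (Finset.mem_of_mem_erase hm')
    have h3 : (m + ∑ b ∈ B.erase m, b) * m' = m' + ∑ b ∈ B.erase m, b := by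
      rw [add_mul, h1, mul_comm m m', h2]
    rw [hsum', zero_mul] at h3
    have h4 : m = m' := by
      have h5 : m + ∑ b ∈ B.erase m, b = m' + ∑ b ∈ B.erase m, b := by rw [hsum', ← h3]
      exact add_right_cancel h5
    rw [← h4] at hm'
    exact Finset.notMem_erase m B hm'

include hC h0 in
theorem sum_unique {A B : Finset R} (hA : (A : Set R) ⊆ C) (hB : (B : Set R) ⊆ C)
    (h : ∑ a ∈ A, a = ∑ b ∈ B, b) : A = B := by
  classical
  have h1 : ∑ b ∈ symmDiff A B, b = 0 := by
    rw [sum_symmDiff, h, BooleanRing.add_self]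
  have h2 : ((symmDiff A B : Finset R) : Set R) ⊆ C := by
    intro x hx
    rcases Finset.mem_symmDiff.1 (Finset.mem_coe.1 hx) with hx | hx
    · exact hA hx.1
    · exact hB hx.1
  have h3 := indep hC h0 _ h2 h1
  exact symmDiff_eq_bot.1 h3

variable (hspan : ∀ x : R, ∃ B : Finset R, (B : Set R) ⊆ C ∧ ∑ b ∈ B, b = x)

/-- the basis elements in `x` -/
noncomputable def supp (x : R) : Finset R := (hspan x).choose

theorem supp_sub (x : R) : ((supp hspan x : Finset R) : Set R) ⊆ C := (hspan x).choose_spec.1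

theorem sum_supp (x : R) : ∑ b ∈ supp hspan x, b = x := (hspan x).choose_spec.2

include hC h0 in
theorem supp_eq {x : R} {B : Finset R} (hB : (B : Set R) ⊆ C) (h : ∑ b ∈ B, b = x) :
    supp hspan x = B :=
  sum_unique hC h0 (supp_sub hspan x) hB ((sum_supp hspan x).trans h.symm)

open Classical in
include hC h0 in
theorem supp_add (x y : R) : supp hspan (x + y) = symmDiff (supp hspan x) (supp hspan y) := by
  apply supp_eq hC h0
  · intro z hz
    rcases Finset.mem_symmDiff.1 (Finset.mem_coe.1 hz) with hz | hz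
    · exact supp_sub hspan x hz.1
    · exact supp_sub hspan y hz.1
  · rw [sum_symmDiff, sum_supp, sum_supp]

theorem supp_inj {x y : R} (h : supp hspan x = supp hspan y) : x = y := by
  rw [← sum_supp hspan x, h, sum_supp]

include hC h0 in
theorem supp_mul (x y : R) {c : R} (hc : c ∈ supp hspan (x * y)) :
    c ∈ supp hspan x ∨ c ∈ supp hspan y := by
  classical
  set E : Finset R := supp hspan x ∪ supp hspan y with hE
  have hEC : (E : Set R) ⊆ C := by
    intro z hz
    rcases Finset.mem_union.1 (Finset.mem_coe.1 hz) with hz | hz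
    · exact supp_sub hspan x hz
    · exact supp_sub hspan y hz
  have hadd : ∀ a b : R, (∃ B ⊆ E, ∑ z ∈ B, z = a) → (∃ B ⊆ E, ∑ z ∈ B, z = b) →
      ∃ B ⊆ E, ∑ z ∈ B, z = a + b := by
    rintro a b ⟨A, hA, rfl⟩ ⟨B, hB, rfl⟩
    refine ⟨symmDiff A B, ?_, sum_symmDiff A B⟩
    intro z hz
    rcases Finset.mem_symmDiff.1 hz with hz | hz
    · exact hA hz.1
    · exact hB hz.1
  have hzero : ∃ B ⊆ E, ∑ z ∈ B, z = (0 : R) := ⟨∅, Finset.empty_subset _, Finset.sum_empty⟩
  have hsing : ∀ a ∈ E, ∃ B ⊆ E, ∑ z ∈ B, z = a := fun a ha =>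
    ⟨{a}, Finset.singleton_subset_iff.2 ha, Finset.sum_singleton _ _⟩
  have hmul : ∃ B ⊆ E, ∑ z ∈ B, z = x * y := by
    have h1 : x * y = ∑ a ∈ supp hspan x, ∑ b ∈ supp hspan y, a * b := by
      rw [← Finset.sum_mul_sum, sum_supp, sum_supp]
    rw [h1]
    refine Finset.sum_induction _ (fun r => ∃ B ⊆ E, ∑ z ∈ B, z = r) hadd hzero fun a ha => ?_
    refine Finset.sum_induction _ (fun r => ∃ B ⊆ E, ∑ z ∈ B, z = r) hadd hzero fun b hb => ?_
    have haE : a ∈ E := Finset.mem_union_left _ ha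
    have hbE : b ∈ E := Finset.mem_union_right _ hb
    rcases hC a (hEC haE) b (hEC hbE) with h | h
    · rw [h]; exact hsing a haE
    · rw [h]; exact hsing b hbE
  obtain ⟨B, hBE, hB⟩ := hmul
  have h2 : supp hspan (x * y) = B :=
    supp_eq hC h0 hspan (fun z hz => hEC (hBE hz)) hB
  rw [h2] at hc
  exact Finset.mem_union.1 (hBE hc)

open Classical in
/-- the indicator function of `supp x` -/
noncomputable def ind (x : R) : R →₀ ℕ :=
  Finsupp.onFinset (supp hspan x) (fun c => if c ∈ supp hspan x then 1 else 0) (by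
    intro c hc
    by_contra h
    exact hc (if_neg h))

open Classical in
theorem ind_apply (x c : R) : ind hspan x c = if c ∈ supp hspan x then 1 else 0 := rfl

/-- the well-founded relation on the finitely supported functions -/
def rel (f g : R →₀ ℕ) : Prop :=
  Finsupp.Lex (fun a b : R => WellOrderingRel b a) (· < ·) f g

theorem rel_wf : WellFounded (rel : (R →₀ ℕ) → (R →₀ ℕ) → Prop) := by
  have : Std.Trichotomous (fun a b : R => WellOrderingRel b a) := by
    constructor
    intro a b h1 h2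
    rcases trichotomous_of (WellOrderingRel : R → R → Prop) a b with h | h | h
    · exact absurd h h2
    · exact h
    · exact absurd h h1
  exact Finsupp.Lex.wellFounded' (fun n => Nat.not_lt_zero n) wellFounded_lt
    WellOrderingRel.isWellOrder.wf

include hC h0 in
theorem key {S S' : Set R} {x x' : R}
    (hmin : ∀ y ∈ S, ¬ rel (ind hspan y) (ind hspan x))
    (hmin' : ∀ y ∈ S', ¬ rel (ind hspan y) (ind hspan x'))
    (h1 : x * x' ∈ S) (h2 : x + x' + x * x' ∈ S') : x * x' = x := by
  classical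
  by_contra hne
  set y := x * x' with hy
  set z := x + x' + y with hz
  set Δ : Finset R := symmDiff (supp hspan y) (supp hspan x) ∪
    symmDiff (supp hspan z) (supp hspan x') with hΔ
  have hΔne : Δ.Nonempty := by
    rw [Finset.nonempty_iff_ne_empty]
    intro he
    apply hne
    apply supp_inj hspan
    have h3 : symmDiff (supp hspan y) (supp hspan x) = ∅ := by
      rw [← Finset.subset_empty, ← he]
      exact Finset.subset_union_left
    exact symmDiff_eq_bot.1 h3
  obtain ⟨M, hM, hMmax⟩ : ∃ M ∈ Δ, ∀ c, WellOrderingRel M c → c ∉ Δ := by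
    let _ : LinearOrder R := linearOrderOfSTO (WellOrderingRel : R → R → Prop)
    obtain ⟨M, hM, hMmax⟩ := Finset.exists_max_image Δ id hΔne
    refine ⟨M, hM, fun c hc hcΔ => ?_⟩
    have h3 : c ≤ M := hMmax c hcΔ
    have h4 : M < c := hc
    exact absurd h3 (not_le.2 h4)
  have heq : ∀ c, WellOrderingRel M c → (c ∈ supp hspan y ↔ c ∈ supp hspan x) ∧
      (c ∈ supp hspan z ↔ c ∈ supp hspan x') := by
    intro c hc
    have h3 := hMmax c hc
    rw [hΔ, Finset.mem_union, Finset.mem_symmDiff, Finset.mem_symmDiff] at h3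
    tauto
  have hA : M ∈ supp hspan x → M ∈ supp hspan y := by
    intro hx
    by_contra hcon
    apply hmin y h1
    refine ⟨M, fun c hc => ?_, ?_⟩
    · rw [ind_apply, ind_apply]
      exact if_congr (heq c hc).1 rfl rfl
    · show (ind hspan y) M < (ind hspan x) M
      rw [ind_apply, ind_apply, if_neg hcon, if_pos hx]
      exact Nat.one_pos
  have hB : M ∈ supp hspan x' → M ∈ supp hspan z := by
    intro hx
    by_contra hcon
    apply hmin' z h2
    refine ⟨M, fun c hc => ?_, ?_⟩
    · rw [ind_apply, ind_apply]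
      exact if_congr (heq c hc).2 rfl rfl
    · show (ind hspan z) M < (ind hspan x') M
      rw [ind_apply, ind_apply, if_neg hcon, if_pos hx]
      exact Nat.one_pos
  have hD : M ∈ supp hspan y → M ∈ supp hspan x ∨ M ∈ supp hspan x' := fun h =>
    supp_mul hC h0 hspan x x' h
  have hE : M ∈ supp hspan z ↔
      ((((M ∈ supp hspan x ∧ M ∉ supp hspan x') ∨ (M ∈ supp hspan x' ∧ M ∉ supp hspan x)) ∧
        M ∉ supp hspan y) ∨ (M ∈ supp hspan y ∧
        ¬ ((M ∈ supp hspan x ∧ M ∉ supp hspan x') ∨ (M ∈ supp hspan x' ∧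
          M ∉ supp hspan x)))) := by
    rw [hz, supp_add hC h0, supp_add hC h0, Finset.mem_symmDiff, Finset.mem_symmDiff]
  rw [hΔ, Finset.mem_union, Finset.mem_symmDiff, Finset.mem_symmDiff] at hM
  tauto

end Ring

/-! ### The theorem -/

/-- **Main theorem.** Every Boolean algebra generated by a chain has the monotone selection
property. -/
theorem result (T : Type u) [BooleanAlgebra T] (hT : GeneratedByChain T) :
    MonotoneSelection T := by
  classical
  obtain ⟨C₀, hchain, hgen⟩ := hT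
  -- the basis
  let C : Set (AsBoolRing T) := {a | (ofBoolRing a ∈ C₀ ∨ ofBoolRing a = ⊤) ∧ a ≠ 0}
  have h0 : (0 : AsBoolRing T) ∉ C := fun h => h.2 rfl
  have hC : ∀ a ∈ C, ∀ b ∈ C, a * b = a ∨ a * b = b := by
    intro a ha b hb
    have hle : ofBoolRing a ≤ ofBoolRing b ∨ ofBoolRing b ≤ ofBoolRing a := by
      rcases ha.1 with h | h <;> rcases hb.1 with h' | h'
      · exact hchain.total h h'
      · left; rw [h']; exact le_top
      · right; rw [h]; exact le_top
      · left; rw [h']; exact le_top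
    rcases hle with h | h
    · left
      rw [← ofBoolRing_inj, ofBoolRing_mul]
      exact inf_eq_left.2 h
    · right
      rw [← ofBoolRing_inj, ofBoolRing_mul]
      exact inf_eq_right.2 h
  -- it spans
  have hadd : ∀ x y : AsBoolRing T, (∃ B : Finset (AsBoolRing T), (B : Set _) ⊆ C ∧
      ∑ b ∈ B, b = x) → (∃ B : Finset (AsBoolRing T), (B : Set _) ⊆ C ∧ ∑ b ∈ B, b = y) →
      ∃ B : Finset (AsBoolRing T), (B : Set _) ⊆ C ∧ ∑ b ∈ B, b = x + y := by
    rintro a b ⟨A, hA, rfl⟩ ⟨B, hB, rfl⟩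
    refine ⟨symmDiff A B, ?_, sum_symmDiff A B⟩
    intro z hz
    rcases Finset.mem_symmDiff.1 (Finset.mem_coe.1 hz) with hz | hz
    · exact hA hz.1
    · exact hB hz.1
  have hzero : ∃ B : Finset (AsBoolRing T), (B : Set _) ⊆ C ∧ ∑ b ∈ B, b = 0 :=
    ⟨∅, by simp, Finset.sum_empty⟩
  have hsing : ∀ a ∈ C, ∃ B : Finset (AsBoolRing T), (B : Set _) ⊆ C ∧ ∑ b ∈ B, b = a :=
    fun a ha => ⟨{a}, by simpa using ha, Finset.sum_singleton _ _⟩
  have hmul : ∀ x y : AsBoolRing T, (∃ B : Finset (AsBoolRing T), (B : Set _) ⊆ C ∧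
      ∑ b ∈ B, b = x) → (∃ B : Finset (AsBoolRing T), (B : Set _) ⊆ C ∧ ∑ b ∈ B, b = y) →
      ∃ B : Finset (AsBoolRing T), (B : Set _) ⊆ C ∧ ∑ b ∈ B, b = x * y := by
    rintro x y ⟨A, hA, rfl⟩ ⟨B, hB, rfl⟩
    rw [Finset.sum_mul_sum]
    refine Finset.sum_induction _ (fun r => ∃ B : Finset (AsBoolRing T), (B : Set _) ⊆ C ∧
      ∑ b ∈ B, b = r) hadd hzero fun a ha => ?_
    refine Finset.sum_induction _ (fun r => ∃ B : Finset (AsBoolRing T), (B : Set _) ⊆ C ∧
      ∑ b ∈ B, b = r) hadd hzero fun b hb => ?_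
    rcases hC a (hA ha) b (hB hb) with h | h
    · rw [h]; exact hsing a (hA ha)
    · rw [h]; exact hsing b (hB hb)
  have hone : ∃ B : Finset (AsBoolRing T), (B : Set _) ⊆ C ∧ ∑ b ∈ B, b = 1 := by
    by_cases h : (1 : AsBoolRing T) = 0
    · rw [h]; exact hzero
    · exact hsing 1 ⟨Or.inr ofBoolRing_one, h⟩
  let A : BooleanSubalgebra T :=
    { carrier := {t | ∃ B : Finset (AsBoolRing T), (B : Set _) ⊆ C ∧ ∑ b ∈ B, b = toBoolRing t}
      supClosed' := by
        intro a ha b hb
        have h1 : toBoolRing (a ⊔ b) = toBoolRing a + toBoolRing b +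
            toBoolRing a * toBoolRing b := by
          rw [← toBoolRing_inf, ← toBoolRing_symmDiff, ← toBoolRing_symmDiff,
            symmDiff_symmDiff_inf]
        show ∃ B : Finset (AsBoolRing T), (B : Set _) ⊆ C ∧ ∑ b ∈ B, b = toBoolRing (a ⊔ b)
        rw [h1]
        exact hadd _ _ (hadd _ _ ha hb) (hmul _ _ ha hb)
      infClosed' := by
        intro a ha b hb
        show ∃ B : Finset (AsBoolRing T), (B : Set _) ⊆ C ∧ ∑ b ∈ B, b = toBoolRing (a ⊓ b)
        rw [toBoolRing_inf]
        exact hmul _ _ ha hb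
      compl_mem' := by
        intro a ha
        show ∃ B : Finset (AsBoolRing T), (B : Set _) ⊆ C ∧ ∑ b ∈ B, b = toBoolRing aᶜ
        have h1 : toBoolRing aᶜ = 1 + toBoolRing a := by
          rw [← toBoolRing_top, ← toBoolRing_symmDiff, top_symmDiff', hnot_eq_compl]
        rw [h1]
        exact hadd _ _ hone ha
      bot_mem' := by
        show ∃ B : Finset (AsBoolRing T), (B : Set _) ⊆ C ∧ ∑ b ∈ B, b = toBoolRing (⊥ : T)
        rw [toBoolRing_bot]
        exact hzero }
  have hAtop : A = ⊤ := by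
    apply hgen
    intro c hc
    show ∃ B : Finset (AsBoolRing T), (B : Set _) ⊆ C ∧ ∑ b ∈ B, b = toBoolRing c
    by_cases h : toBoolRing c = 0
    · rw [h]; exact hzero
    · exact hsing _ ⟨Or.inl hc, h⟩
  have hspan : ∀ x : AsBoolRing T, ∃ B : Finset (AsBoolRing T), (B : Set _) ⊆ C ∧
      ∑ b ∈ B, b = x := by
    intro x
    have h1 : ofBoolRing x ∈ A := by rw [hAtop]; exact BooleanSubalgebra.mem_top
    exact h1
  -- the selection
  have hsel : ∀ S : {S : Set T // IsSub S}, ∃ x ∈ S.1, ∀ y ∈ S.1,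
      ¬ rel (ind hspan (toBoolRing y)) (ind hspan (toBoolRing x)) := by
    intro S
    obtain ⟨f, ⟨x, hx, rfl⟩, hmin⟩ := rel_wf.has_min
      ((fun y => ind hspan (toBoolRing y)) '' S.1) (S.2.1.image _)
    exact ⟨x, hx, fun y hy => hmin _ ⟨y, hy, rfl⟩⟩
  choose φ hφ hmin using hsel
  refine ⟨φ, fun S S' hSS => ?_, hφ⟩
  obtain ⟨h1, h2⟩ := hSS (φ S) (hφ S) (φ S') (hφ S')
  have h3 := key hC h0 hspan (S := toBoolRing '' S.1) (S' := toBoolRing '' S'.1)
    (x := toBoolRing (φ S)) (x' := toBoolRing (φ S'))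
    (by rintro _ ⟨y, hy, rfl⟩; exact hmin S y hy)
    (by rintro _ ⟨y, hy, rfl⟩; exact hmin S' y hy)
    ⟨_, h1, toBoolRing_inf _ _⟩
    ⟨_, h2, by
      rw [← toBoolRing_inf, ← toBoolRing_symmDiff, ← toBoolRing_symmDiff,
        symmDiff_symmDiff_inf]⟩
  rw [← toBoolRing_inf, toBoolRing_inj] at h3
  exact inf_eq_left.1 h3

end Pool.Agent.Results.MP_9a43b6_co.ChainGenerated
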